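import Pool.Agent.Helper20.CP.Spec

/-!
# CP, part EX: the competition has an outcome
-/

set_option autoImplicit false

open MeasureTheory ProbabilityTheory Filter Topology
open scoped ENNReal

namespace Pool.Agent.Helper39.CP.EX

open Pool.Agent.Helper20.CP

variable {X V : Type}

/-- The passage time of the edge at `x` for the colour `c` (`true` is red). -/
noncomputable def wt (σ : Equiv.Perm X) (w : Sym2 X → ℝ × ℝ) (c : Bool) (x : X) : ℝ≥0∞ :=
  if c = true then ENNReal.ofReal (w s(x, σ x)).1 else ENNReal.ofReal (w s(x, σ x)).2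

/-- A state of Dijkstra's algorithm. -/
structure St (vt : X → V) (σ : Equiv.Perm X) (w : Sym2 X → ℝ × ℝ) (coin : V → Bool) (r b : V)
    (S : Finset V) (t : V → ℝ≥0∞) (col : V → Bool) : Prop where
  hr : r ∈ S
  hb : b ∈ S
  tr : t r = 0
  tb : t b = 0
  src : r ≠ b → col r = true ∧ col b = false
  fin : ∀ v ∈ S, t v ≠ ⊤
  pass : ∀ x, vt x ∈ S → vt (σ x) ∈ S → t (vt (σ x)) ≤ t (vt x) + wt σ w (col (vt x)) x
  front : ∀ x, vt x ∈ S → vt (σ x) ∉ S → ∀ u ∈ S, t u ≤ t (vt x) + wt σ w (col (vt x)) x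
  frm : ∀ v ∈ S, v ≠ r → v ≠ b → ∃ x, vt x ∈ S ∧ col (vt x) = col v ∧ vt (σ x) = v ∧
    t v = t (vt x) + wt σ w (col (vt x)) x
  tie : ∀ v ∈ S, v ≠ r → v ≠ b →
    (∃ x, vt x ∈ S ∧ col (vt x) = true ∧ vt (σ x) = v ∧ t v = t (vt x) + wt σ w true x) →
    (∃ x, vt x ∈ S ∧ col (vt x) = false ∧ vt (σ x) = v ∧ t v = t (vt x) + wt σ w false x) →
    col v = coin v

variable {vt : X → V} {σ : Equiv.Perm X} {w : Sym2 X → ℝ × ℝ} {coin : V → Bool} {r b : V}

lemma wt_ne_top (c : Bool) (x : X) : wt σ w c x ≠ ⊤ := by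
  unfold wt; split_ifs <;> exact ENNReal.ofReal_ne_top

lemma wt_pos (h1 : ∀ p, 0 < (w p).1) (h2 : ∀ p, 0 < (w p).2) (c : Bool) (x : X) :
    0 < wt σ w c x := by
  unfold wt; split_ifs
  · exact ENNReal.ofReal_pos.mpr (h1 _)
  · exact ENNReal.ofReal_pos.mpr (h2 _)

lemma step [Fintype X] [DecidableEq V] (h1 : ∀ p, 0 < (w p).1) (h2 : ∀ p, 0 < (w p).2)
    {S : Finset V} {t : V → ℝ≥0∞} {col : V → Bool}
    (hs : St vt σ w coin r b S t col) (hx : ∃ x, vt x ∈ S ∧ vt (σ x) ∉ S) :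
    ∃ (v : V) (t' : V → ℝ≥0∞) (col' : V → Bool), v ∉ S ∧
      St vt σ w coin r b (insert v S) t' col' := by
  classical
  set a : X → ℝ≥0∞ := fun x => t (vt x) + wt σ w (col (vt x)) x with ha
  set C : Finset X := Finset.univ.filter (fun x => vt x ∈ S ∧ vt (σ x) ∉ S) with hC
  have hCne : C.Nonempty := by
    obtain ⟨x, hx⟩ := hx
    exact ⟨x, by rw [hC, Finset.mem_filter]; exact ⟨Finset.mem_univ _, hx⟩⟩
  obtain ⟨x₀, hx₀, hmin⟩ := Finset.exists_min_image C a hCne
  have hx₀' := (Finset.mem_filter.mp hx₀).2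
  set v := vt (σ x₀) with hv
  have hvS : v ∉ S := hx₀'.2
  have hafin : a x₀ ≠ ⊤ := ENNReal.add_ne_top.mpr ⟨hs.fin _ hx₀'.1, wt_ne_top _ _⟩
  have hle : ∀ u ∈ S, t u ≤ a x₀ := hs.front x₀ hx₀'.1 hx₀'.2
  -- the colour of `v`
  set c : Bool := if (∃ x, vt x ∈ S ∧ col (vt x) = true ∧ vt (σ x) = v ∧ a x₀ = a x) ∧
      (∃ x, vt x ∈ S ∧ col (vt x) = false ∧ vt (σ x) = v ∧ a x₀ = a x) then coin v
    else col (vt x₀) with hc
  have hcol : ∃ x, vt x ∈ S ∧ col (vt x) = c ∧ vt (σ x) = v ∧ a x₀ = a x := by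
    by_cases hb2 : (∃ x, vt x ∈ S ∧ col (vt x) = true ∧ vt (σ x) = v ∧ a x₀ = a x) ∧
      (∃ x, vt x ∈ S ∧ col (vt x) = false ∧ vt (σ x) = v ∧ a x₀ = a x)
    · rw [hc, if_pos hb2]
      cases h : coin v
      · exact hb2.2
      · exact hb2.1
    · rw [hc, if_neg hb2]
      exact ⟨x₀, hx₀'.1, rfl, rfl, rfl⟩
  set t' : V → ℝ≥0∞ := fun u => if u = v then a x₀ else t u with ht'
  set col' : V → Bool := fun u => if u = v then c else col u with hcol'
  have htv : t' v = a x₀ := if_pos rfl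
  have hcv : col' v = c := if_pos rfl
  have hne : ∀ u ∈ S, u ≠ v := fun u hu h => hvS (by rw [← h]; exact hu)
  have htS : ∀ u ∈ S, t' u = t u := fun u hu => if_neg (hne u hu)
  have hcS : ∀ u ∈ S, col' u = col u := fun u hu => if_neg (hne u hu)
  have hminv : ∀ x, vt x ∈ S → vt (σ x) ∉ S → a x₀ ≤ a x := by
    intro x hx1 hx2
    exact hmin x (by rw [hC, Finset.mem_filter]; exact ⟨Finset.mem_univ _, hx1, hx2⟩)
  have hnoself : ∀ (u : V) (cc : Bool) (x : X), u ∈ insert v S → t' u ≠ t' v + wt σ w cc x := by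
    intro u cc x hu h
    have h3 : t' u ≤ t' v := by
      rw [Finset.mem_insert] at hu
      rcases hu with rfl | hu
      · exact le_rfl
      · rw [htS u hu, htv]; exact hle u hu
    have h4 : t' v < t' v + wt σ w cc x := by
      apply ENNReal.lt_add_right
      · rw [htv]; exact hafin
      · exact (wt_pos h1 h2 cc x).ne'
    rw [← h] at h4
    exact absurd h3 (not_le.mpr h4)
  refine ⟨v, t', col', hvS, ?_⟩
  refine
    { hr := Finset.mem_insert_of_mem hs.hr
      hb := Finset.mem_insert_of_mem hs.hb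
      tr := by rw [htS r hs.hr]; exact hs.tr
      tb := by rw [htS b hs.hb]; exact hs.tb
      src := ?_, fin := ?_, pass := ?_, front := ?_, frm := ?_, tie := ?_ }
  · intro hrb
    rw [hcS r hs.hr, hcS b hs.hb]; exact hs.src hrb
  · intro u hu
    rw [Finset.mem_insert] at hu
    rcases hu with rfl | hu
    · rw [htv]; exact hafin
    · rw [htS u hu]; exact hs.fin u hu
  · intro x hx1 hx2
    rw [Finset.mem_insert] at hx1 hx2
    rcases hx1 with hx1 | hx1
    · -- the source is `v`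
      rw [hx1]
      refine le_trans ?_ (self_le_add_right _ _)
      rcases hx2 with hx2 | hx2
      · rw [hx2]
      · rw [htS _ hx2, htv]; exact hle _ hx2
    · rw [htS _ hx1, hcS _ hx1]
      rcases hx2 with hx2 | hx2
      · rw [hx2, htv]
        exact hminv x hx1 (by rw [hx2]; exact hvS)
      · rw [htS _ hx2]; exact hs.pass x hx1 hx2
  · intro x hx1 hx2 u hu
    rw [Finset.mem_insert] at hx1 hu
    rw [Finset.mem_insert, not_or] at hx2
    rcases hx1 with hx1 | hx1
    · rw [hx1]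
      refine le_trans ?_ (self_le_add_right _ _)
      rcases hu with rfl | hu
      · exact le_rfl
      · rw [htS _ hu, htv]; exact hle _ hu
    · rw [htS _ hx1, hcS _ hx1]
      refine le_trans ?_ (hminv x hx1 hx2.2)
      rcases hu with rfl | hu
      · rw [htv]
      · rw [htS _ hu]; exact hle _ hu
  · intro u hu hur hub
    rw [Finset.mem_insert] at hu
    rcases hu with rfl | hu
    · obtain ⟨x, hxS, hxc, hxv, hxa⟩ := hcol
      refine ⟨x, Finset.mem_insert_of_mem hxS, ?_, hxv, ?_⟩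
      · rw [hcS _ hxS, hcv, hxc]
      · rw [htv, htS _ hxS, hcS _ hxS]; exact hxa
    · obtain ⟨x, hxS, hxc, hxv, hxa⟩ := hs.frm u hu hur hub
      refine ⟨x, Finset.mem_insert_of_mem hxS, ?_, hxv, ?_⟩
      · rw [hcS _ hxS, hcS _ hu, hxc]
      · rw [htS _ hu, htS _ hxS, hcS _ hxS]; exact hxa
  · rintro u hu hur hub ⟨x, hxS, hxc, hxv, hxa⟩ ⟨y, hyS, hyc, hyv, hya⟩
    have hxS' : vt x ∈ S := by
      rw [Finset.mem_insert] at hxS
      rcases hxS with h | h
      · rw [h] at hxa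
        exact absurd hxa (hnoself u _ x hu)
      · exact h
    have hyS' : vt y ∈ S := by
      rw [Finset.mem_insert] at hyS
      rcases hyS with h | h
      · rw [h] at hya
        exact absurd hya (hnoself u _ y hu)
      · exact h
    rw [hcS _ hxS'] at hxc
    rw [hcS _ hyS'] at hyc
    rw [htS _ hxS'] at hxa
    rw [htS _ hyS'] at hya
    rw [Finset.mem_insert] at hu
    rcases hu with rfl | hu
    · rw [hcv, hc, if_pos]
      rw [htv] at hxa hya
      refine ⟨⟨x, hxS', hxc, hxv, ?_⟩, ⟨y, hyS', hyc, hyv, ?_⟩⟩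
      · rw [hxa, ha]; simp only [hxc]
      · rw [hya, ha]; simp only [hyc]
    · rw [hcS _ hu]
      rw [htS _ hu] at hxa hya
      exact hs.tie u hu hur hub ⟨x, hxS', hxc, hxv, hxa⟩ ⟨y, hyS', hyc, hyv, hya⟩

theorem main : S_EX := by
  classical
  intro X V _ _ vt σ w coin r b _ h1 h2
  -- a final state
  have key : ∀ (k : ℕ) (S : Finset V) (t : V → ℝ≥0∞) (col : V → Bool),
      St vt σ w coin r b S t col → S.card + k = Fintype.card V →
      ∃ (S : Finset V) (t : V → ℝ≥0∞) (col : V → Bool), St vt σ w coin r b S t col ∧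
        ∀ x, vt x ∈ S → vt (σ x) ∈ S := by
    intro k
    induction k with
    | zero =>
      intro S t col hs hcard
      refine ⟨S, t, col, hs, fun x _ => ?_⟩
      have : S = Finset.univ := Finset.eq_univ_of_card S (by omega)
      rw [this]; exact Finset.mem_univ _
    | succ k ih =>
      intro S t col hs hcard
      by_cases hx : ∃ x, vt x ∈ S ∧ vt (σ x) ∉ S
      · obtain ⟨v, t', col', hv, hs'⟩ := step h1 h2 hs hx
        exact ih _ t' col' hs' (by rw [Finset.card_insert_of_notMem hv]; omega)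
      · push Not at hx
        exact ⟨S, t, col, hs, hx⟩
  have hinit : St vt σ w coin r b {r, b} (fun _ => 0) (fun v => decide (¬ (v = b ∧ r ≠ b))) := by
    refine
      { hr := by simp
        hb := by simp
        tr := rfl
        tb := rfl
        src := fun h => by simp [h]
        fin := fun _ _ => ENNReal.zero_ne_top
        pass := fun _ _ _ => zero_le
        front := fun _ _ _ _ _ => zero_le
        frm := ?_
        tie := ?_ }
    · intro v hv h1 h2
      simp [h1, h2] at hv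
    · intro v hv h1 h2
      simp [h1, h2] at hv
  obtain ⟨S, t, col, hs, hcl⟩ := key (Fintype.card V - ({r, b} : Finset V).card) {r, b} _ _ hinit
    (by have := Finset.card_le_univ ({r, b} : Finset V); omega)
  set red : Set V := {v | v ∈ S ∧ col v = true} with hred
  set blue : Set V := {v | v ∈ S ∧ col v = false} with hblue
  set t' : V → ℝ≥0∞ := fun v => if v ∈ S then t v else ⊤ with ht'
  have htS : ∀ v ∈ S, t' v = t v := fun v hv => if_pos hv
  refine ⟨t', red, blue, ?_⟩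
  refine
    { disj := ?_, fin := ?_, srcr := ?_, srcb := ?_, src := ?_, passR := ?_, passB := ?_
      fromR := ?_, fromB := ?_, tie := ?_ }
  · rw [Set.disjoint_left]
    rintro v ⟨-, h⟩ ⟨-, h'⟩
    rw [h] at h'; exact absurd h' (by decide)
  · intro v
    by_cases hv : v ∈ S
    · rw [htS v hv]
      refine ⟨fun _ => hs.fin v hv, fun _ => ?_⟩
      cases h : col v
      · exact Or.inr ⟨hv, h⟩
      · exact Or.inl ⟨hv, h⟩
    · constructor
      · rintro (h | h)
        · exact absurd h.1 hv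
        · exact absurd h.1 hv
      · intro h
        exact absurd (if_neg hv : t' v = ⊤) h
  · rw [htS r hs.hr]; exact hs.tr
  · rw [htS b hs.hb]; exact hs.tb
  · intro h
    exact ⟨⟨hs.hr, (hs.src h).1⟩, ⟨hs.hb, (hs.src h).2⟩⟩
  · rintro x ⟨hx, hc⟩
    rw [htS _ hx, htS _ (hcl x hx)]
    have := hs.pass x hx (hcl x hx)
    rwa [hc, wt, if_pos rfl] at this
  · rintro x ⟨hx, hc⟩
    rw [htS _ hx, htS _ (hcl x hx)]
    have := hs.pass x hx (hcl x hx)
    rwa [hc, wt, if_neg (by decide)] at this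
  · rintro v ⟨hv, hc⟩ hr hb
    obtain ⟨x, hxS, hxc, hxv, hxa⟩ := hs.frm v hv hr hb
    refine ⟨x, ⟨hxS, by rw [hxc, hc]⟩, hxv, ?_⟩
    rw [htS _ hxS, htS _ hv, hxa, hxc, hc, wt, if_pos rfl]
  · rintro v ⟨hv, hc⟩ hr hb
    obtain ⟨x, hxS, hxc, hxv, hxa⟩ := hs.frm v hv hr hb
    refine ⟨x, ⟨hxS, by rw [hxc, hc]⟩, hxv, ?_⟩
    rw [htS _ hxS, htS _ hv, hxa, hxc, hc, wt, if_neg (by decide)]
  · rintro v hr hb ⟨x, ⟨hxS, hxc⟩, hxv, hxa⟩ ⟨y, ⟨hyS, hyc⟩, hyv, hya⟩
    have hv : v ∈ S := by rw [← hxv]; exact hcl x hxS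
    rw [htS _ hxS, htS _ hv] at hxa
    rw [htS _ hyS, htS _ hv] at hya
    have := hs.tie v hv hr hb
      ⟨x, hxS, hxc, hxv, by rw [wt, if_pos rfl]; exact hxa⟩
      ⟨y, hyS, hyc, hyv, by rw [wt, if_neg (by decide)]; exact hya⟩
    constructor
    · rintro ⟨-, h⟩
      rw [← this, h]
    · intro h
      exact ⟨hv, by rw [this, h]⟩

end Pool.Agent.Helper39.CP.EX
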