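import Pool.Agent.Helper39.CP.Moment

/-!
# CP, part REGB
-/

set_option autoImplicit false

open MeasureTheory ProbabilityTheory Filter Topology
open scoped ENNReal

namespace Pool.Agent.Helper39.CP.REGB

open Pool.Agent.Helper20.CP Pool.Agent.Helper39.CP

open Classical in
lemma det {n : ℕ} (hn : 1 ≤ n) (d : Fin n → ℕ) (b0 γ s a : ℝ) (hb : 1 < b0) (hγ : 1 < γ)
    (hs : 0 < s) (hsa : s < a) (ha1 : a < 1) (h2 : ∀ v, 2 ≤ d v)
    (hZ : ∑ v, ((d v : ℝ) + 1) ^ (1 + a - s / 2) ≤ n * b0 ^ (s / 2)) :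
    RegB (fixDeg d) b0 γ s a := by
  have hn0 : (0 : ℝ) < n := by exact_mod_cast hn
  have hb0 : 0 < b0 := by linarith
  set p : ℝ := 1 + a - s / 2 with hp
  have hD : ∀ v, ((fixDeg d v : ℕ) : ℝ) ≤ (d v : ℝ) + 1 := fun v => by
    exact_mod_cast (fixDeg_le d v).2
  have hD2 : ∀ v, (2 : ℝ) ≤ ((fixDeg d v : ℕ) : ℝ) := fun v => by
    exact_mod_cast (h2 v).trans (fixDeg_le d v).1
  have hDp : ∀ v, ((fixDeg d v : ℕ) : ℝ) ^ p ≤ ((d v : ℝ) + 1) ^ p := fun v =>
    Real.rpow_le_rpow (Nat.cast_nonneg _) (hD v) (by linarith)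
  -- powers
  have hgi : ∀ i : ℕ, b0 ^ (s / 2) ≤ b0 ^ ((γ ^ i : ℝ) * (s / 2)) := by
    intro i
    apply Real.rpow_le_rpow_of_exponent_le hb.le
    have : (1 : ℝ) ≤ γ ^ i := one_le_pow₀ hγ.le
    nlinarith
  refine ⟨fun v => (h2 v).trans (fixDeg_le d v).1, ?_, ?_⟩
  · intro i
    rw [Fintype.card_fin]
    set e : ℝ := (γ ^ i : ℝ) with he
    set b : ℝ := b0 ^ e with hbd
    have hbpos : 0 < b := Real.rpow_pos_of_pos hb0 _
    calc ∑ v ∈ Finset.univ.filter (fun v => b < ((fixDeg d v : ℕ) : ℝ)), ((fixDeg d v : ℕ) : ℝ)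
        ≤ ∑ v ∈ Finset.univ.filter (fun v => b < ((fixDeg d v : ℕ) : ℝ)),
            b ^ (1 - p) * ((d v : ℝ) + 1) ^ p := by
          apply Finset.sum_le_sum
          intro v hv
          rw [Finset.mem_filter] at hv
          have h0 : 0 < ((fixDeg d v : ℕ) : ℝ) := by linarith [hD2 v]
          calc ((fixDeg d v : ℕ) : ℝ) = ((fixDeg d v : ℕ) : ℝ) ^ (1 - p) * ((fixDeg d v : ℕ) : ℝ) ^ p := by
                rw [← Real.rpow_add h0, sub_add_cancel, Real.rpow_one]
            _ ≤ b ^ (1 - p) * ((d v : ℝ) + 1) ^ p := by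
                apply mul_le_mul _ (hDp v) (by positivity) (by positivity)
                exact Real.rpow_le_rpow_of_nonpos hbpos hv.2.le (by linarith)
      _ ≤ ∑ v, b ^ (1 - p) * ((d v : ℝ) + 1) ^ p := by
          apply Finset.sum_le_sum_of_subset_of_nonneg (Finset.filter_subset _ _)
          intro v _ _; positivity
      _ = b ^ (1 - p) * ∑ v, ((d v : ℝ) + 1) ^ p := by rw [Finset.mul_sum]
      _ ≤ b ^ (1 - p) * (n * b0 ^ (e * (s / 2))) := by
          apply mul_le_mul_of_nonneg_left _ (by positivity)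
          refine hZ.trans ?_
          apply mul_le_mul_of_nonneg_left (hgi i) hn0.le
      _ = n * b0 ^ (e * (s - a)) := by
          rw [hbd, ← Real.rpow_mul hb0.le, mul_left_comm, ← Real.rpow_add hb0]
          congr 2; rw [hp]; ring
  · intro i
    rw [Fintype.card_fin]
    set e : ℝ := (γ ^ i : ℝ) with he
    set b : ℝ := b0 ^ e with hbd
    have hbpos : 0 < b := Real.rpow_pos_of_pos hb0 _
    calc ∑ v ∈ Finset.univ.filter (fun v => ((fixDeg d v : ℕ) : ℝ) ≤ b), ((fixDeg d v : ℕ) : ℝ) ^ 2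
        ≤ ∑ v ∈ Finset.univ.filter (fun v => ((fixDeg d v : ℕ) : ℝ) ≤ b),
            b ^ (2 - p) * ((d v : ℝ) + 1) ^ p := by
          apply Finset.sum_le_sum
          intro v hv
          rw [Finset.mem_filter] at hv
          have h0 : 0 < ((fixDeg d v : ℕ) : ℝ) := by linarith [hD2 v]
          calc ((fixDeg d v : ℕ) : ℝ) ^ 2 = ((fixDeg d v : ℕ) : ℝ) ^ (2 - p) * ((fixDeg d v : ℕ) : ℝ) ^ p := by
                rw [← Real.rpow_add h0, sub_add_cancel, Real.rpow_two]
            _ ≤ b ^ (2 - p) * ((d v : ℝ) + 1) ^ p := by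
                apply mul_le_mul _ (hDp v) (by positivity) (by positivity)
                exact Real.rpow_le_rpow h0.le hv.2 (by linarith)
      _ ≤ ∑ v, b ^ (2 - p) * ((d v : ℝ) + 1) ^ p := by
          apply Finset.sum_le_sum_of_subset_of_nonneg (Finset.filter_subset _ _)
          intro v _ _; positivity
      _ = b ^ (2 - p) * ∑ v, ((d v : ℝ) + 1) ^ p := by rw [Finset.mul_sum]
      _ ≤ b ^ (2 - p) * (n * b0 ^ (e * (s / 2))) := by
          apply mul_le_mul_of_nonneg_left _ (by positivity)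
          refine hZ.trans ?_
          apply mul_le_mul_of_nonneg_left (hgi i) hn0.le
      _ = n * b0 ^ (e * (1 - a + s)) := by
          rw [hbd, ← Real.rpow_mul hb0.le, mul_left_comm, ← Real.rpow_add hb0]
          congr 2; rw [hp]; ring

theorem main : S_REGB := by
  intro ν _ a C1 ha ha1 h2 htail γ s hγ hs hsa ε hε
  set p : ℝ := 1 + a - s / 2 with hp
  have hM := moment ν a C1 p (by linarith) (by linarith) htail
  set M : ℝ := (∫⁻ k : ℕ, ENNReal.ofReal (((k : ℝ) + 1) ^ p) ∂ν).toReal with hMdef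
  have hM0 : 0 ≤ M := ENNReal.toReal_nonneg
  refine ⟨max 2 ((M / ε + 1) ^ (2 / s)), fun b0 hb n hn => ?_⟩
  have hb2 : 2 ≤ b0 := (le_max_left _ _).trans hb
  have hb0 : 0 < b0 := by linarith
  have hbs : M / ε + 1 ≤ b0 ^ (s / 2) := by
    have h1 : (M / ε + 1) ^ (2 / s) ≤ b0 := (le_max_right _ _).trans hb
    have h2 := Real.rpow_le_rpow (by positivity) h1 (by positivity : 0 ≤ s / 2)
    rw [← Real.rpow_mul (by positivity)] at h2
    have e : 2 / s * (s / 2) = 1 := by field_simp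
    rwa [e, Real.rpow_one] at h2
  have hsub : {d : Fin n → ℕ | ¬ RegB (fixDeg d) b0 γ s a} ⊆
      {d | ∃ v, d v < 2} ∪ {d | n * b0 ^ (s / 2) < ∑ v, ((d v : ℝ) + 1) ^ p} := by
    intro d hd
    by_contra hcon
    rw [Set.mem_union, not_or] at hcon
    obtain ⟨hc1, hc2⟩ := hcon
    apply hd
    apply det hn d b0 γ s a (by linarith) hγ hs hsa ha1
    · intro v
      by_contra h
      exact hc1 ⟨v, by omega⟩
    · exact not_lt.mp hc2
  refine (measure_mono hsub).trans ((measure_union_le _ _).trans ?_)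
  rw [two_ae ν h2 n, zero_add]
  refine (markov_sum ν p hM n hn (b0 ^ (s / 2)) (by positivity)).trans ?_
  apply ENNReal.ofReal_le_ofReal
  rw [← hMdef, div_le_iff₀ (by positivity)]
  calc M = ε * (M / ε) := by field_simp
    _ ≤ ε * b0 ^ (s / 2) := by
      apply mul_le_mul_of_nonneg_left _ hε.le
      linarith

end Pool.Agent.Helper39.CP.REGB
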