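import Pool.Agent.Helper39.CP.Moment

/-!
# CP, part REGC
-/

set_option autoImplicit false

open MeasureTheory ProbabilityTheory Filter Topology
open scoped ENNReal

namespace Pool.Agent.Helper39.CP.REGC

open Pool.Agent.Helper20.CP Pool.Agent.Helper39.CP

open Classical in
/-- number of degrees in `I` -/
noncomputable def cnt (I : Set ℕ) {n : ℕ} (d : Fin n → ℕ) : ℕ :=
  (Finset.univ.filter fun v => d v ∈ I).card

open Classical in
lemma cnt_le (I : Set ℕ) {n : ℕ} (d : Fin n → ℕ) (W : Finset (Fin n)) (h : ∀ v, d v ∈ I → v ∈ W) :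
    cnt I d ≤ W.card := by
  unfold cnt
  apply Finset.card_le_card
  intro v hv
  exact h v (Finset.mem_filter.mp hv).2

open Classical in
/-- Chernoff's bound for the number of degrees in `I`. -/
lemma chern (ν : Measure ℕ) [IsProbabilityMeasure ν] (I : Set ℕ) (μ : ℝ) (hμ0 : 0 ≤ μ)
    (hμ : ENNReal.ofReal μ ≤ ν I) (n : ℕ) :
    (Measure.pi fun _ : Fin n => ν)
      {d | (cnt I d : ℝ) < n * μ / 2} ≤
        ENNReal.ofReal (Real.exp (-(n * μ / 8))) := by
  unfold cnt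
  set f : ℕ → ℝ := fun k => if k ∈ I then Real.exp (-1) else 1 with hf
  have he : Real.exp (-1) ≤ 3 / 8 := by
    rw [Real.exp_neg, inv_le_comm₀ (Real.exp_pos _) (by norm_num)]
    have := Real.exp_one_gt_d9
    norm_num
    linarith
  have he0 : 0 < Real.exp (-1) := Real.exp_pos _
  have hprod : ∀ d : Fin n → ℕ, ∏ v, f (d v) =
      Real.exp (-((Finset.univ.filter fun v => d v ∈ I).card : ℝ)) := by
    intro d
    rw [hf]
    simp only
    rw [Finset.prod_ite, Finset.prod_const, Finset.prod_const_one, mul_one, ← Real.exp_nat_mul]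
    congr 1; ring
  have hνI : μ ≤ ν.real I := by
    have := ENNReal.toReal_mono (measure_ne_top ν I) hμ
    rwa [ENNReal.toReal_ofReal hμ0] at this
  have hint : ∫ k, f k ∂ν = 1 - (1 - Real.exp (-1)) * ν.real I := by
    have e1 : f = fun k => 1 - (1 - Real.exp (-1)) * I.indicator 1 k := by
      funext k
      rw [hf]
      by_cases hk : k ∈ I
      · simp [hk]
      · simp [hk]
    rw [e1, integral_sub (integrable_const _), integral_const, probReal_univ, one_smul,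
      integral_const_mul, integral_indicator_one MeasurableSet.of_discrete]
    exact ((integrable_const (1 : ℝ)).indicator MeasurableSet.of_discrete).const_mul _
  have hint0 : 0 ≤ ∫ k, f k ∂ν := by
    apply integral_nonneg
    intro k
    rw [hf]
    simp only [Pi.zero_apply]
    split_ifs
    · exact he0.le
    · norm_num
  have hint1 : ∫ k, f k ∂ν ≤ Real.exp (-(5 / 8 * μ)) := by
    rw [hint]
    calc 1 - (1 - Real.exp (-1)) * ν.real I ≤ 1 - 5 / 8 * μ := by
          have h0 : 0 ≤ ν.real I := measureReal_nonneg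
          nlinarith
      _ ≤ Real.exp (-(5 / 8 * μ)) := by
          have := Real.add_one_le_exp (-(5 / 8 * μ))
          linarith
  have hpi : ∫ d : Fin n → ℕ, ∏ v, f (d v) ∂(Measure.pi fun _ : Fin n => ν) ≤
      Real.exp (-(5 / 8 * (n * μ))) := by
    rw [integral_fintype_prod_eq_pow, Fintype.card_fin]
    calc (∫ k, f k ∂ν) ^ n ≤ (Real.exp (-(5 / 8 * μ))) ^ n := pow_le_pow_left₀ hint0 hint1 n
      _ = Real.exp (-(5 / 8 * (n * μ))) := by
        rw [← Real.exp_nat_mul]; congr 1; ring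
  have hmeas : ∀ v : Fin n, Measurable (fun d : Fin n → ℕ => f (d v)) :=
    fun v => (Measurable.of_discrete (f := f)).comp (measurable_pi_apply v)
  have hbd : ∀ d : Fin n → ℕ, ∏ v, f (d v) ≤ 1 := by
    intro d
    rw [hprod, Real.exp_le_one_iff]
    have : (0 : ℝ) ≤ ((Finset.univ.filter fun v => d v ∈ I).card : ℝ) := Nat.cast_nonneg _
    linarith
  have hnn : ∀ d : Fin n → ℕ, 0 ≤ ∏ v, f (d v) := by
    intro d
    rw [hprod]; exact (Real.exp_pos _).le
  have hinteg : Integrable (fun d : Fin n → ℕ => ∏ v, f (d v)) (Measure.pi fun _ : Fin n => ν) := by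
    apply Integrable.of_bound (C := 1)
    · exact (Finset.measurable_prod _ (fun v _ => hmeas v)).aestronglyMeasurable
    · refine Filter.Eventually.of_forall (fun d => ?_)
      rw [Real.norm_of_nonneg (hnn d)]
      exact hbd d
  have hmark := mul_meas_ge_le_integral_of_nonneg (μ := Measure.pi fun _ : Fin n => ν)
    (Filter.Eventually.of_forall hnn) hinteg (Real.exp (-(n * μ / 2)))
  have hsub : {d : Fin n → ℕ | ((Finset.univ.filter fun v => d v ∈ I).card : ℝ) < n * μ / 2} ⊆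
      {d | Real.exp (-(n * μ / 2)) ≤ ∏ v, f (d v)} := by
    intro d hd
    show Real.exp (-(n * μ / 2)) ≤ ∏ v, f (d v)
    rw [hprod, Real.exp_le_exp]
    have : ((Finset.univ.filter fun v => d v ∈ I).card : ℝ) < n * μ / 2 := hd
    linarith
  refine (measure_mono hsub).trans ?_
  rw [← ofReal_measureReal]
  apply ENNReal.ofReal_le_ofReal
  have h1 : Real.exp (-(n * μ / 2)) *
      (Measure.pi fun _ : Fin n => ν).real {d | Real.exp (-(n * μ / 2)) ≤ ∏ v, f (d v)} ≤
      Real.exp (-(5 / 8 * (n * μ))) := hmark.trans hpi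
  have h2 : Real.exp (-(5 / 8 * (n * μ))) = Real.exp (-(n * μ / 2)) * Real.exp (-(n * μ / 8)) := by
    rw [← Real.exp_add]; congr 1; ring
  rw [h2] at h1
  exact le_of_mul_le_mul_left h1 (Real.exp_pos _)

/-- the probability of the window -/
lemma window (ν : Measure ℕ) [IsProbabilityMeasure ν] (a c1 C1 : ℝ) (ha : 0 < a) (ha1 : a < 1)
    (hc1 : 0 < c1)
    (hlow : ∀ x : ℝ, 1 ≤ x → ENNReal.ofReal (c1 / x ^ (1 + a)) ≤ ν {k : ℕ | x < (k : ℝ)})
    (hup : ∀ x : ℝ, 1 ≤ x → ν {k : ℕ | x < (k : ℝ)} ≤ ENNReal.ofReal (C1 / x ^ (1 + a)))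
    (y : ℝ) (hy2 : 2 ≤ y) (hyC : 8 * |C1| / c1 ≤ y) :
    ENNReal.ofReal (c1 / 2 * y ^ (-(1 + a))) ≤ ν {k : ℕ | y < (k : ℝ) ∧ (k : ℝ) + 1 ≤ y ^ 2} := by
  have hy0 : 0 < y := by linarith
  have hyy : 1 ≤ y ^ 2 - 1 := by nlinarith
  have hsub : {k : ℕ | y < (k : ℝ)} ⊆ {k : ℕ | y < (k : ℝ) ∧ (k : ℝ) + 1 ≤ y ^ 2} ∪
      {k : ℕ | y ^ 2 - 1 < (k : ℝ)} := by
    intro k hk
    by_cases h : (k : ℝ) + 1 ≤ y ^ 2
    · exact Or.inl ⟨hk, h⟩
    · right
      show y ^ 2 - 1 < (k : ℝ)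
      linarith [not_le.mp h]
  have h1 : ENNReal.ofReal (c1 / y ^ (1 + a)) ≤
      ν {k : ℕ | y < (k : ℝ) ∧ (k : ℝ) + 1 ≤ y ^ 2} + ENNReal.ofReal (C1 / (y ^ 2 - 1) ^ (1 + a)) :=
    (hlow y (by linarith)).trans ((measure_mono hsub).trans ((measure_union_le _ _).trans
      (add_le_add le_rfl (hup _ hyy))))
  have hP : 0 < y ^ (1 + a) := Real.rpow_pos_of_pos hy0 _
  have hyP : y ≤ y ^ (1 + a) := by
    calc y = y ^ (1 : ℝ) := (Real.rpow_one y).symm
      _ ≤ y ^ (1 + a) := Real.rpow_le_rpow_of_exponent_le (by linarith) (by linarith)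
  have h2 : C1 / (y ^ 2 - 1) ^ (1 + a) ≤ c1 / 2 * y ^ (-(1 + a)) := by
    have h3 : y ^ (1 + a) * y ^ (1 + a) / 4 ≤ (y ^ 2 - 1) ^ (1 + a) := by
      calc y ^ (1 + a) * y ^ (1 + a) / 4 ≤ y ^ (1 + a) * y ^ (1 + a) / 2 ^ (1 + a) := by
            apply div_le_div_of_nonneg_left (by positivity) (by positivity)
            calc (2 : ℝ) ^ (1 + a) ≤ 2 ^ (2 : ℝ) :=
                  Real.rpow_le_rpow_of_exponent_le (by norm_num) (by linarith)
              _ = 4 := by norm_num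
        _ = (y * y / 2) ^ (1 + a) := by
            rw [Real.div_rpow (by positivity) (by norm_num), Real.mul_rpow hy0.le hy0.le]
        _ ≤ (y ^ 2 - 1) ^ (1 + a) := by
            apply Real.rpow_le_rpow (by positivity) _ (by linarith)
            nlinarith
    have h4 : 0 < (y ^ 2 - 1) ^ (1 + a) := Real.rpow_pos_of_pos (by linarith) _
    have h5 : C1 ≤ |C1| := le_abs_self _
    have h6 : 8 * |C1| ≤ y ^ (1 + a) * c1 := by
      rw [div_le_iff₀ hc1] at hyC
      exact hyC.trans (mul_le_mul_of_nonneg_right hyP hc1.le)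
    rw [Real.rpow_neg hy0.le, div_le_iff₀ h4]
    calc C1 ≤ y ^ (1 + a) * c1 / 8 := by linarith
      _ = c1 / 2 * (y ^ (1 + a))⁻¹ * (y ^ (1 + a) * y ^ (1 + a) / 4) := by
          field_simp; norm_num
      _ ≤ c1 / 2 * (y ^ (1 + a))⁻¹ * (y ^ 2 - 1) ^ (1 + a) := by
          apply mul_le_mul_of_nonneg_left h3 (by positivity)
  have h7 : ENNReal.ofReal (c1 / y ^ (1 + a)) ≤
      ν {k : ℕ | y < (k : ℝ) ∧ (k : ℝ) + 1 ≤ y ^ 2} + ENNReal.ofReal (c1 / 2 * y ^ (-(1 + a))) :=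
    h1.trans (add_le_add le_rfl (ENNReal.ofReal_le_ofReal h2))
  have h8 : c1 / y ^ (1 + a) = c1 / 2 * y ^ (-(1 + a)) + c1 / 2 * y ^ (-(1 + a)) := by
    rw [Real.rpow_neg hy0.le, div_eq_mul_inv]; ring
  rw [h8, ENNReal.ofReal_add (by positivity) (by positivity)] at h7
  exact (ENNReal.add_le_add_iff_right ENNReal.ofReal_ne_top).mp h7

/-- Real analysis: the union bound is small. -/
lemma small (c δ lκ ε : ℝ) (hc : 0 < c) (hδ : 0 < δ) (hκ : 0 < lκ) (hε : 0 < ε) :
    ∃ N : ℕ, ∀ n ≥ N, ∀ J : ℕ, (J : ℝ) ≤ Real.log (Real.log n) / lκ →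
      ((J : ℝ) + 1) * Real.exp (-(c * (n : ℝ) ^ δ)) ≤ ε := by
  set C' : ℝ := 1 / (δ * lκ) + 1 with hC'
  have hC'0 : 0 < C' := by positivity
  have ht : Tendsto (fun n : ℕ => (n : ℝ) ^ δ) atTop atTop :=
    (tendsto_rpow_atTop hδ).comp tendsto_natCast_atTop_atTop
  obtain ⟨N, hN⟩ := (Filter.eventually_atTop.mp (ht.eventually_ge_atTop
    (max 1 (2 * C' / (c ^ 2 * ε)))))
  refine ⟨max N 3, fun n hn J hJ => ?_⟩
  have hn3 : (3 : ℝ) ≤ n := by exact_mod_cast (le_max_right _ _).trans hn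
  have hz := hN n ((le_max_left _ _).trans hn)
  set z : ℝ := (n : ℝ) ^ δ with hzdef
  have hz1 : 1 ≤ z := (le_max_left _ _).trans hz
  have hz2 : 2 * C' / (c ^ 2 * ε) ≤ z := (le_max_right _ _).trans hz
  have hlog0 : 0 < Real.log n := Real.log_pos (by linarith)
  have hJ' : (J : ℝ) + 1 ≤ C' * z := by
    have h1 : Real.log (Real.log n) ≤ Real.log n := by
      have := Real.log_le_sub_one_of_pos hlog0
      linarith
    have h2 : Real.log n ≤ z / δ := Real.log_le_rpow_div (by linarith) hδ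
    calc (J : ℝ) + 1 ≤ Real.log (Real.log n) / lκ + 1 := by linarith
      _ ≤ (z / δ) / lκ + z := by
        gcongr
        exact h1.trans h2
      _ = C' * z := by rw [hC']; field_simp
  have hexp : Real.exp (-(c * z)) ≤ 2 / (c * z) ^ 2 := by
    rw [Real.exp_neg, inv_eq_one_div, div_le_div_iff₀ (Real.exp_pos _) (by positivity)]
    have := Real.quadratic_le_exp_of_nonneg (by positivity : 0 ≤ c * z)
    nlinarith [mul_pos hc (by linarith : 0 < z)]
  calc ((J : ℝ) + 1) * Real.exp (-(c * z)) ≤ (C' * z) * (2 / (c * z) ^ 2) := by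
        apply mul_le_mul hJ' hexp (Real.exp_pos _).le (by positivity)
    _ = (2 * C' / (c ^ 2 * ε)) * ε / z := by
        field_simp
    _ ≤ z * ε / z := by
        gcongr
    _ = ε := by field_simp

theorem main (hL : S_LEV) : S_REGC := by
  classical
  intro ν _ a c1 C1 ha ha1 hc1 h2 hlow hup
  have hM := moment ν a C1 1 (by norm_num) (by linarith) hup
  set M : ℝ := (∫⁻ k : ℕ, ENNReal.ofReal (((k : ℝ) + 1) ^ (1 : ℝ)) ∂ν).toReal with hMdef
  have hM0 : 0 ≤ M := ENNReal.toReal_nonneg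
  refine ⟨c1 / 4, max (Real.exp 1) (max 2 (8 * |C1| / c1)), by positivity, fun ε hε => ?_⟩
  refine ⟨2 * M / ε + 1, by positivity, fun α κ hα hαa hκ K hK => ?_⟩
  have hK1 : Real.exp 1 ≤ K := (le_max_left _ _).trans hK
  have hK2 : 2 ≤ K := ((le_max_left _ _).trans (le_max_right _ _)).trans hK
  have hK3 : 8 * |C1| / c1 ≤ K := ((le_max_right _ _).trans (le_max_right _ _)).trans hK
  have hα1 : α ≤ 1 := by nlinarith
  obtain ⟨N1, hN1⟩ := hL α κ K hα hα1 hκ hK1
  have hlκ : 0 < Real.log κ := Real.log_pos hκ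
  obtain ⟨N2, hN2⟩ := small (c1 / 16) (1 - α * (1 + a)) (Real.log κ) (ε / 2) (by positivity)
    (by linarith) hlκ (by linarith)
  refine ⟨max (max N1 N2) 1, fun n hn => ?_⟩
  have hn1 : 1 ≤ n := (le_max_right _ _).trans hn
  have hn0 : (0 : ℝ) < n := by exact_mod_cast hn1
  obtain ⟨-, -, -, -, hlev, hJ⟩ := hN1 n (((le_max_left _ _).trans (le_max_left _ _)).trans hn)
  have hsm := hN2 n (((le_max_right _ _).trans (le_max_left _ _)).trans hn) _ hJ
  set J := Jn α κ K n with hJdef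
  set y : ℕ → ℝ := fun j => yl α κ K n j with hy
  have hyK : ∀ j ≤ J, K ≤ y j := by
    intro j hj
    refine le_trans ?_ (hlev j hj).2
    have h1 : (1 : ℝ) ≤ κ ^ j := one_le_pow₀ hκ.le
    calc K = K ^ (1 : ℝ) := (Real.rpow_one K).symm
      _ ≤ K ^ (κ ^ j : ℝ) := Real.rpow_le_rpow_of_exponent_le (by linarith) h1
  -- the events
  set B : ℕ → Set (Fin n → ℕ) := fun j =>
    {d | (cnt {k : ℕ | y j < (k : ℝ) ∧ (k : ℝ) + 1 ≤ (y j) ^ 2} d : ℝ) <
      n * (c1 / 2 * (y j) ^ (-(1 + a))) / 2} with hB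
  have hBj : ∀ j ∈ Finset.range (J + 1), (Measure.pi fun _ : Fin n => ν) (B j) ≤
      ENNReal.ofReal (Real.exp (-(c1 / 16 * (n : ℝ) ^ (1 - α * (1 + a))))) := by
    intro j hj
    rw [Finset.mem_range] at hj
    have hj' : j ≤ J := by omega
    have hyj := hyK j hj'
    have hy0 : 0 < y j := by linarith
    refine (chern ν _ (c1 / 2 * (y j) ^ (-(1 + a))) (by positivity)
      (window ν a c1 C1 ha ha1 hc1 hlow hup (y j) (by linarith) (hK3.trans hyj)) n).trans ?_
    apply ENNReal.ofReal_le_ofReal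
    rw [Real.exp_le_exp]
    have h1 : (n : ℝ) ^ (-(α * (1 + a))) ≤ (y j) ^ (-(1 + a)) := by
      calc (n : ℝ) ^ (-(α * (1 + a))) = ((n : ℝ) ^ α) ^ (-(1 + a)) := by
            rw [← Real.rpow_mul hn0.le]; congr 1; ring
        _ ≤ (y j) ^ (-(1 + a)) :=
            Real.rpow_le_rpow_of_nonpos hy0 (hlev j hj').1 (by linarith)
    have h2 : (n : ℝ) ^ (1 - α * (1 + a)) = n * (n : ℝ) ^ (-(α * (1 + a))) := by
      rw [sub_eq_add_neg, Real.rpow_add hn0, Real.rpow_one]
    rw [h2]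
    have h3 : n * (n : ℝ) ^ (-(α * (1 + a))) ≤ n * (y j) ^ (-(1 + a)) :=
      mul_le_mul_of_nonneg_left h1 hn0.le
    have h4 : c1 / 16 * (n * (n : ℝ) ^ (-(α * (1 + a)))) ≤ c1 / 16 * (n * (y j) ^ (-(1 + a))) :=
      mul_le_mul_of_nonneg_left h3 (by positivity)
    linarith
  have hsub : {d : Fin n → ℕ | ¬ RegC (fixDeg d) a (2 * M / ε + 1) (c1 / 4) α κ K} ⊆
      ({d | ∃ v, d v < 2} ∪ {d | n * (2 * M / ε + 1) < ∑ v, ((d v : ℝ) + 1) ^ (1 : ℝ)}) ∪
        ⋃ j ∈ Finset.range (J + 1), B j := by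
    intro d hd
    by_contra hcon
    rw [Set.mem_union, Set.mem_union, not_or, not_or] at hcon
    obtain ⟨⟨hc1', hc2⟩, hc3⟩ := hcon
    apply hd
    have htwo : ∀ v, 2 ≤ d v := by
      intro v
      by_contra h
      exact hc1' ⟨v, by omega⟩
    refine ⟨fun v => (htwo v).trans (fixDeg_le d v).1, ?_, ?_⟩
    · rw [Fintype.card_fin]
      have h1 : ∑ v, ((d v : ℝ) + 1) ^ (1 : ℝ) ≤ n * (2 * M / ε + 1) := not_lt.mp hc2
      rw [mul_comm]
      refine le_trans (Finset.sum_le_sum (fun v _ => ?_)) h1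
      rw [Real.rpow_one]
      exact_mod_cast (fixDeg_le d v).2
    · intro j hj
      rw [Fintype.card_fin] at hj ⊢
      have hjB : d ∉ B j := by
        intro h
        apply hc3
        rw [Set.mem_iUnion₂]
        exact ⟨j, by rw [Finset.mem_range]; omega, h⟩
      have h1 : n * (c1 / 2 * (y j) ^ (-(1 + a))) / 2 ≤
          (cnt {k : ℕ | y j < (k : ℝ) ∧ (k : ℝ) + 1 ≤ (y j) ^ 2} d : ℝ) := not_lt.mp hjB
      have h2 : cnt {k : ℕ | y j < (k : ℝ) ∧ (k : ℝ) + 1 ≤ (y j) ^ 2} d ≤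
          (Win (fixDeg d) α κ K j).card := by
        apply cnt_le
        rintro v ⟨hv1, hv2⟩
        unfold Win
        rw [Finset.mem_filter, Fintype.card_fin]
        refine ⟨Finset.mem_univ _, ?_, ?_⟩
        · refine lt_of_lt_of_le hv1 ?_
          exact_mod_cast (fixDeg_le d v).1
        · refine le_trans ?_ hv2
          exact_mod_cast (fixDeg_le d v).2
      have h3 : c1 / 4 * n * yl α κ K n j ^ (-(1 + a)) = n * (c1 / 2 * (y j) ^ (-(1 + a))) / 2 := by
        rw [hy]; ring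
      rw [h3]
      exact h1.trans (by exact_mod_cast h2)
  refine (measure_mono hsub).trans ((measure_union_le _ _).trans ?_)
  have hfirst : (Measure.pi fun _ : Fin n => ν) ({d | ∃ v, d v < 2} ∪
      {d | n * (2 * M / ε + 1) < ∑ v, ((d v : ℝ) + 1) ^ (1 : ℝ)}) ≤ ENNReal.ofReal (ε / 2) := by
    refine (measure_union_le _ _).trans ?_
    rw [two_ae ν h2 n, zero_add]
    refine (markov_sum ν 1 hM n hn1 (2 * M / ε + 1) (by positivity)).trans ?_
    apply ENNReal.ofReal_le_ofReal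
    rw [← hMdef, div_le_iff₀ (by positivity)]
    have : ε / 2 * (2 * M / ε + 1) = M + ε / 2 := by field_simp
    rw [this]; linarith
  have hsecond : (Measure.pi fun _ : Fin n => ν) (⋃ j ∈ Finset.range (J + 1), B j) ≤
      ENNReal.ofReal (ε / 2) := by
    refine (measure_biUnion_finset_le _ _).trans ((Finset.sum_le_sum hBj).trans ?_)
    rw [Finset.sum_const, Finset.card_range, nsmul_eq_mul, ← ENNReal.ofReal_natCast,
      ← ENNReal.ofReal_mul (by positivity)]
    apply ENNReal.ofReal_le_ofReal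
    push_cast
    exact hsm
  calc _ ≤ ENNReal.ofReal (ε / 2) + ENNReal.ofReal (ε / 2) := add_le_add hfirst hsecond
    _ = ENNReal.ofReal ε := by
      rw [← ENNReal.ofReal_add (by linarith) (by linarith), add_halves]

end Pool.Agent.Helper39.CP.REGC
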