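import Pool.Agent.Helper20.CP.Spec

/-!
# CP, parts REGB and REGC: moments of the degrees
-/

set_option autoImplicit false

open MeasureTheory ProbabilityTheory Filter Topology
open scoped ENNReal

namespace Pool.Agent.Helper39.CP

open Pool.Agent.Helper20.CP

/-- pointwise bound for the moment -/
lemma pointwise (p : ℝ) (hp : 0 ≤ p) (k : ℕ) :
    ENNReal.ofReal (((k : ℝ) + 1) ^ p) ≤ ENNReal.ofReal ((4 : ℝ) ^ p) +
      ∑' j : ℕ, ENNReal.ofReal (((2 : ℝ) ^ (j + 3)) ^ p) *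
        Set.indicator {m : ℕ | (2 : ℝ) ^ (j + 1) < (m : ℝ)} 1 k := by
  have hk1 : (1 : ℝ) ≤ (k : ℝ) + 1 := by
    have : (0 : ℝ) ≤ k := Nat.cast_nonneg k
    linarith
  obtain ⟨n, hn1, hn2⟩ := exists_nat_pow_near hk1 (by norm_num : (1 : ℝ) < 2)
  rcases Nat.lt_or_ge n 2 with h | h
  · refine le_trans (ENNReal.ofReal_le_ofReal ?_) (self_le_add_right _ _)
    apply Real.rpow_le_rpow (by positivity) _ hp
    refine hn2.le.trans ?_
    calc (2 : ℝ) ^ (n + 1) ≤ 2 ^ 2 := pow_le_pow_right₀ (by norm_num) (by omega)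
      _ = 4 := by norm_num
  · obtain ⟨j, rfl⟩ : ∃ j, n = j + 2 := ⟨n - 2, by omega⟩
    refine le_trans ?_ (self_le_add_left _ _)
    refine le_trans ?_ (ENNReal.le_tsum j)
    have hmem : k ∈ {m : ℕ | (2 : ℝ) ^ (j + 1) < (m : ℝ)} := by
      show (2 : ℝ) ^ (j + 1) < (k : ℝ)
      have h1 : (2 : ℝ) ^ (j + 2) = 2 ^ (j + 1) + 2 ^ (j + 1) := by ring
      have h2 : (2 : ℝ) ≤ 2 ^ (j + 1) := by
        calc (2 : ℝ) = 2 ^ 1 := by norm_num
          _ ≤ 2 ^ (j + 1) := pow_le_pow_right₀ (by norm_num) (by omega)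
      linarith
    rw [Set.indicator_of_mem hmem, Pi.one_apply, mul_one]
    apply ENNReal.ofReal_le_ofReal
    exact Real.rpow_le_rpow (by positivity) hn2.le hp

/-- the moment of order `p < 1 + a` is finite -/
lemma moment (ν : Measure ℕ) [IsProbabilityMeasure ν] (a C1 p : ℝ) (hp : 0 ≤ p) (hpa : p < 1 + a)
    (htail : ∀ x : ℝ, 1 ≤ x → ν {k : ℕ | x < (k : ℝ)} ≤ ENNReal.ofReal (C1 / x ^ (1 + a))) :
    ∫⁻ k : ℕ, ENNReal.ofReal (((k : ℝ) + 1) ^ p) ∂ν ≠ ⊤ := by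
  set q : ℝ := (2 : ℝ) ^ (p - (1 + a)) with hq
  have hq0 : 0 < q := Real.rpow_pos_of_pos (by norm_num) _
  have hq1 : q < 1 := Real.rpow_lt_one_of_one_lt_of_neg (by norm_num) (by linarith)
  set C : ℝ := ((4 : ℝ) ^ p) * |C1| with hC
  have hC0 : 0 ≤ C := by positivity
  have hterm : ∀ j : ℕ, ENNReal.ofReal (((2 : ℝ) ^ (j + 3)) ^ p) *
      ν {m : ℕ | (2 : ℝ) ^ (j + 1) < (m : ℝ)} ≤ ENNReal.ofReal (C * q ^ (j + 1)) := by
    intro j
    have h1 : (1 : ℝ) ≤ 2 ^ (j + 1) := one_le_pow₀ (by norm_num)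
    refine le_trans (mul_le_mul_right (htail _ h1) _) ?_
    rw [← ENNReal.ofReal_mul (by positivity)]
    apply ENNReal.ofReal_le_ofReal
    have e1 : ((2 : ℝ) ^ (j + 3)) ^ p = (4 : ℝ) ^ p * ((2 : ℝ) ^ (j + 1)) ^ p := by
      rw [← Real.mul_rpow (by norm_num) (by positivity)]
      congr 1; ring
    have e2 : q ^ (j + 1) = ((2 : ℝ) ^ (j + 1)) ^ p / ((2 : ℝ) ^ (j + 1)) ^ (1 + a) := by
      rw [← Real.rpow_sub (by positivity), hq, ← Real.rpow_natCast, ← Real.rpow_natCast,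
        ← Real.rpow_mul (by norm_num), ← Real.rpow_mul (by norm_num)]
      congr 1; push_cast; ring
    rw [e1, e2, hC]
    have h3 : C1 ≤ |C1| := le_abs_self _
    have h4 : 0 < ((2 : ℝ) ^ (j + 1)) ^ (1 + a) := by positivity
    calc (4 : ℝ) ^ p * ((2 : ℝ) ^ (j + 1)) ^ p * (C1 / ((2 : ℝ) ^ (j + 1)) ^ (1 + a))
        ≤ (4 : ℝ) ^ p * ((2 : ℝ) ^ (j + 1)) ^ p * (|C1| / ((2 : ℝ) ^ (j + 1)) ^ (1 + a)) := by
          gcongr
      _ = _ := by ring
  have hsum : Summable (fun j : ℕ => C * q ^ (j + 1)) := by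
    have := (summable_geometric_of_lt_one hq0.le hq1).mul_left (C * q)
    refine this.congr (fun j => ?_)
    ring
  have hle : ∫⁻ k : ℕ, ENNReal.ofReal (((k : ℝ) + 1) ^ p) ∂ν ≤
      ENNReal.ofReal ((4 : ℝ) ^ p) + ∑' j : ℕ, ENNReal.ofReal (C * q ^ (j + 1)) := by
    calc ∫⁻ k : ℕ, ENNReal.ofReal (((k : ℝ) + 1) ^ p) ∂ν
        ≤ ∫⁻ k : ℕ, (ENNReal.ofReal ((4 : ℝ) ^ p) +
          ∑' j : ℕ, ENNReal.ofReal (((2 : ℝ) ^ (j + 3)) ^ p) *
            Set.indicator {m : ℕ | (2 : ℝ) ^ (j + 1) < (m : ℝ)} 1 k) ∂ν :=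
          lintegral_mono (pointwise p hp)
      _ = ENNReal.ofReal ((4 : ℝ) ^ p) + ∑' j : ℕ, ENNReal.ofReal (((2 : ℝ) ^ (j + 3)) ^ p) *
            ν {m : ℕ | (2 : ℝ) ^ (j + 1) < (m : ℝ)} := by
          rw [lintegral_add_left (by fun_prop), lintegral_const, measure_univ, mul_one,
            lintegral_tsum (fun j => (Measurable.of_discrete).aemeasurable)]
          congr 1
          apply tsum_congr
          intro j
          rw [lintegral_const_mul _ (Measurable.of_discrete),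
            lintegral_indicator_one (MeasurableSet.of_discrete)]
      _ ≤ _ := by
          gcongr with j
          exact hterm j
  refine ne_top_of_le_ne_top ?_ hle
  rw [← ENNReal.ofReal_tsum_of_nonneg (fun j => by positivity) hsum]
  exact ENNReal.add_ne_top.mpr ⟨ENNReal.ofReal_ne_top, ENNReal.ofReal_ne_top⟩

/-- the sum of `f (d v)` has the mean `n ∫ f` -/
lemma lintegral_sum_pi (ν : Measure ℕ) [IsProbabilityMeasure ν] (n : ℕ) (f : ℕ → ℝ≥0∞) :
    ∫⁻ d : Fin n → ℕ, ∑ v, f (d v) ∂(Measure.pi fun _ : Fin n => ν) = n * ∫⁻ k, f k ∂ν := by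
  have hm : ∀ v : Fin n, Measurable (fun d : Fin n → ℕ => f (d v)) :=
    fun v => (Measurable.of_discrete (f := f)).comp (measurable_pi_apply v)
  rw [lintegral_finsetSum _ (fun v _ => hm v)]
  have : ∀ v : Fin n, ∫⁻ d : Fin n → ℕ, f (d v) ∂(Measure.pi fun _ : Fin n => ν) = ∫⁻ k, f k ∂ν := by
    intro v
    exact (measurePreserving_eval (fun _ : Fin n => ν) v).lintegral_comp (Measurable.of_discrete)
  simp [this]

/-- Markov's inequality for the sum of the moments -/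
lemma markov_sum (ν : Measure ℕ) [IsProbabilityMeasure ν] (p : ℝ)
    (hM : ∫⁻ k : ℕ, ENNReal.ofReal (((k : ℝ) + 1) ^ p) ∂ν ≠ ⊤) (n : ℕ) (hn : 1 ≤ n) (A : ℝ)
    (hA : 0 < A) :
    (Measure.pi fun _ : Fin n => ν) {d | n * A < ∑ v, ((d v : ℝ) + 1) ^ p} ≤
      ENNReal.ofReal ((∫⁻ k : ℕ, ENNReal.ofReal (((k : ℝ) + 1) ^ p) ∂ν).toReal / A) := by
  set M := ∫⁻ k : ℕ, ENNReal.ofReal (((k : ℝ) + 1) ^ p) ∂ν with hMdef
  have hn0 : (0 : ℝ) < n := by exact_mod_cast hn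
  have hsub : {d : Fin n → ℕ | n * A < ∑ v, ((d v : ℝ) + 1) ^ p} ⊆
      {d | ENNReal.ofReal (n * A) ≤ ∑ v, ENNReal.ofReal (((d v : ℝ) + 1) ^ p)} := by
    intro d hd
    show ENNReal.ofReal (n * A) ≤ ∑ v, ENNReal.ofReal (((d v : ℝ) + 1) ^ p)
    rw [← ENNReal.ofReal_sum_of_nonneg (fun v _ => by positivity)]
    exact ENNReal.ofReal_le_ofReal (le_of_lt hd)
  refine (measure_mono hsub).trans ?_
  have hmeas : Measurable (fun d : Fin n → ℕ => ∑ v, ENNReal.ofReal (((d v : ℝ) + 1) ^ p)) :=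
    Finset.measurable_sum _ (fun v _ => (Measurable.of_discrete
      (f := fun k : ℕ => ENNReal.ofReal (((k : ℝ) + 1) ^ p))).comp (measurable_pi_apply v))
  refine (meas_ge_le_lintegral_div hmeas.aemeasurable (ENNReal.ofReal_pos.mpr (by positivity)).ne'
    ENNReal.ofReal_ne_top).trans ?_
  rw [lintegral_sum_pi ν n (fun k => ENNReal.ofReal (((k : ℝ) + 1) ^ p)), ← hMdef,
    ← ENNReal.ofReal_toReal hM, ← ENNReal.ofReal_natCast, ← ENNReal.ofReal_mul hn0.le,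
    ← ENNReal.ofReal_div_of_pos (by positivity), ENNReal.toReal_ofReal ENNReal.toReal_nonneg]
  apply ENNReal.ofReal_le_ofReal
  apply le_of_eq
  field_simp

/-- almost surely all degrees are at least two -/
lemma two_ae (ν : Measure ℕ) [IsProbabilityMeasure ν] (h2 : ν {k | k < 2} = 0) (n : ℕ) :
    (Measure.pi fun _ : Fin n => ν) {d | ∃ v, d v < 2} = 0 := by
  have : {d : Fin n → ℕ | ∃ v, d v < 2} = ⋃ v, Function.eval v ⁻¹' {k : ℕ | k < 2} := by
    ext d; simp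
  rw [this, measure_iUnion_null_iff]
  intro v
  rw [(measurePreserving_eval (fun _ : Fin n => ν) v).measure_preimage
    (MeasurableSet.of_discrete).nullMeasurableSet, h2]

lemma fixDeg_le {n : ℕ} (d : Fin n → ℕ) (v : Fin n) : d v ≤ fixDeg d v ∧ fixDeg d v ≤ d v + 1 := by
  unfold fixDeg
  split_ifs <;> omega

end Pool.Agent.Helper39.CP
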